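import Pool.Agent.H5.DPG.Stmts

/-!
Row PBR: dynamic programming over all subsets in polynomial time.
-/

set_option autoImplicit false

namespace Pool.DPG

open Filter TMLib Pool.PG

namespace PBR

/-- The type of the tables. -/
abbrev Tb : Type := List (List Bool × List Bool)

theorem plk {α : Type} [Enc α] {tb : α → Tb} {X : α → List Bool} (htb : PTime tb)
    (hX : PTime X) : PTime (fun a => lk (tb a) (X a)) := by
  have h1 : PTime (fun a => (tb a).filter fun e => decide (e.1 = X a)) :=
    PTime.filter (l := tb) (g := fun a e => decide (e.1 = X a)) htb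
      (PTime.eq (PTime.fst (PTime.snd PTime.id)) (hX.comp (PTime.fst PTime.id)))
  have h2 : PTime (fun a => ((tb a).filter fun e => decide (e.1 = X a)).map Prod.snd) :=
    PTime.map (g := fun _ e => e.2) h1 (PTime.snd (PTime.snd PTime.id))
  refine (PTime.getD (PTime.head? h2) (PTime.const [])).congr fun a => ?_
  unfold lk
  cases ((tb a).filter fun e => decide (e.1 = X a)).map Prod.snd <;> rfl

theorem len_msk (n : ℕ) (f : ℕ → Bool) : (msk n f).length = n := by simp [msk]

theorem len_zs (g : Game) (S : List Bool → List Bool) (X L : List Bool) :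
    (zs g S X L).length ≤ g.length := by
  unfold zs
  split_ifs
  · simp
  · rw [len_msk]
  · unfold jn
    split_ifs
    · simp
    · rw [len_msk]

theorem len_ent (g : Game) (tb : Tb) (Z : List Bool) : (ent g tb Z).length ≤ g.length := by
  unfold ent
  split_ifs
  · rw [len_msk]
  · exact len_zs _ _ _ _

theorem pent (h1 : PZSStmt) (h3 : PMAStmt) {α : Type} [Enc α] {G : α → Game} {tb : α → Tb}
    {Z : α → List Bool} (hG : PTime G) (htb : PTime tb) (hZ : PTime Z) :
    PTime (fun a => ent (G a) (tb a) (Z a)) := by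
  obtain ⟨hdif, -, -, -, -, hnA, -⟩ := h3
  have ha : PTime (fun a => nA (G a) (Z a)) :=
    hnA.comp (f := fun a => (G a, Z a)) (PTime.pair hG hZ)
  have hd : PTime (fun a => dif (G a) (Z a) (nA (G a) (Z a))) :=
    hdif.comp (f := fun a => (G a, Z a, nA (G a) (Z a))) (PTime.pair hG (PTime.pair hZ ha))
  have hz : PTime (fun a => zs (G a) (lk (tb a)) (Z a) (lk (tb a) (dif (G a) (Z a) (nA (G a) (Z a))))) :=
    h1 α (fun a X => lk (tb a) X) G Z (fun a => lk (tb a) (dif (G a) (Z a) (nA (G a) (Z a))))
      (plk (htb.comp (PTime.fst PTime.id)) (PTime.snd PTime.id)) hG hZ (plk htb hd)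
  have hany : PTime (fun a => (Z a).any fun b => b) :=
    PTime.any (g := fun _ b => b) hZ (PTime.snd PTime.id)
  have hm : PTime (fun a => msk (G a).length fun _ => true) :=
    PTime.map (l := fun a => List.range (G a).length) (g := fun _ _ => true)
      (PTime.range (PTime.length hG)) (PTime.const true)
  unfold ent
  exact PTime.ite (PTime.eq hany (PTime.const false)) hm hz

theorem foldl_len (g : Game) (l : List (List Bool)) : ∀ tb : Tb,
    (l.foldl (fun tb Z => tb ++ [(Z, ent g tb Z)]) tb).length = tb.length + l.length := by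
  induction l with
  | nil => intro tb; simp
  | cons Z l ih =>
    intro tb
    rw [List.foldl_cons, ih]
    simp
    omega

theorem foldl_mem (g : Game) (n : ℕ) (l : List (List Bool)) (hl : ∀ Z ∈ l, Z.length = n) :
    ∀ tb : Tb, (∀ e ∈ tb, e.1.length = n ∧ e.2.length ≤ g.length) →
    ∀ e ∈ l.foldl (fun tb Z => tb ++ [(Z, ent g tb Z)]) tb,
      e.1.length = n ∧ e.2.length ≤ g.length := by
  induction l with
  | nil => intro tb h; simpa using h
  | cons Z l ih =>
    intro tb h
    rw [List.foldl_cons]
    refine ih (fun Z' hZ' => hl Z' (List.mem_cons_of_mem _ hZ')) _ ?_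
    intro e he
    rcases List.mem_append.1 he with he | he
    · exact h e he
    · rw [List.mem_singleton.1 he]
      exact ⟨hl Z List.mem_cons_self, len_ent _ _ _⟩

theorem sz_bl (l : List Bool) (n : ℕ) (h : l.length ≤ n) : sz l ≤ 1 + n * 4 :=
  sz_list_le l n 3 h (fun a _ => sz_bool_le a)

end PBR

open PBR in
theorem pbr_thm (h1 : PZSStmt) (h2 : PSBStmt) (h3 : PMAStmt) (h4 : SBSStmt) : PBRStmt := by
  intro c
  have hcap : PTime (fun p : Game × List Bool => (p.1.length + 2) ^ c) :=
    PTime.pow (PTime.add (PTime.length (PTime.fst PTime.id)) (PTime.const 2)) c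
  have hs : PTime (fun p : Game × List Bool => sbs ((p.1.length + 2) ^ c) p.2) :=
    h2.comp (f := fun p : Game × List Bool => ((p.1.length + 2) ^ c, p.2))
      (PTime.pair hcap (PTime.snd PTime.id))
  have hf : PTime (fun q : (Game × List Bool) × Tb × List Bool =>
      q.2.1 ++ [(q.2.2, ent q.1.1 q.2.1 q.2.2)]) := by
    have e1 : PTime (fun q : (Game × List Bool) × Tb × List Bool => q.1.1) :=
      PTime.fst (PTime.fst PTime.id)
    have e2 : PTime (fun q : (Game × List Bool) × Tb × List Bool => q.2.1) :=
      PTime.fst (PTime.snd PTime.id)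
    have e3 : PTime (fun q : (Game × List Bool) × Tb × List Bool => q.2.2) :=
      PTime.snd (PTime.snd PTime.id)
    exact PTime.append e2 (PTime.cons (PTime.pair e3 (pent h1 h3 e1 e2 e3)) (PTime.const []))
  have hN : PTime (fun p : Game × List Bool => 1 + ((p.1.length + 2) ^ c + 1) *
      (1 + (3 + 4 * p.2.length + 4 * p.1.length))) :=
    PTime.add (PTime.const 1) (PTime.mul (PTime.add hcap (PTime.const 1)) (PTime.add (PTime.const 1)
      (PTime.add (PTime.add (PTime.const 3) (PTime.mul (PTime.const 4)
        (PTime.length (PTime.snd PTime.id)))) (PTime.mul (PTime.const 4)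
        (PTime.length (PTime.fst PTime.id))))))
  have ht : PTime (fun p : Game × List Bool =>
      (sbs ((p.1.length + 2) ^ c) p.2).foldl (fun tb Z => tb ++ [(Z, ent p.1 tb Z)]) ([] : Tb)) := by
    refine PTime.foldl (f := fun (p : Game × List Bool) (tb : Tb) (Z : List Bool) =>
      tb ++ [(Z, ent p.1 tb Z)]) (init := fun _ : Game × List Bool => ([] : Tb))
      (l := fun p : Game × List Bool => sbs ((p.1.length + 2) ^ c) p.2) hf (PTime.const []) hs
      (h := fun p => 1 + ((p.1.length + 2) ^ c + 1) * (1 + (3 + 4 * p.2.length + 4 * p.1.length)))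
      (hN.pb.mono fun p => by rw [sz_nat]; omega) ?_
    intro p l' hl'
    obtain ⟨hlen, hmem⟩ := h4.1 ((p.1.length + 2) ^ c) p.2
    refine sz_list_le _ _ _ ?_ ?_
    · rw [foldl_len]
      have := hl'.length_le
      simp only [List.length_nil]
      omega
    · intro e he
      have h := foldl_mem p.1 p.2.length l' (fun Z hZ => hmem Z (hl'.subset hZ)) []
        (fun e he => absurd he List.not_mem_nil) e he
      have h5 := sz_bl e.1 p.2.length h.1.le
      have h6 := sz_bl e.2 p.1.length h.2
      rw [sz_pair]
      omega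
  exact plk (tb := fun p : Game × List Bool => tab p.1 (sbs ((p.1.length + 2) ^ c) p.2)) ht
    (PTime.snd PTime.id)

end Pool.DPG
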